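import Pool.Agent.P8H63.EF.TR

/-!
# Project EF (helper3), package KER: primitive characters are injective near `1` (helper63)
-/

set_option autoImplicit false

namespace Pool.Agent.P8H63.EF

open Finset

theorem one_add_pow_dvd (y : ℤ) (j : ℕ) : y ^ 2 ∣ (1 + y) ^ j - (1 + j * y) := by
  induction j with
  | zero => simp
  | succ j ih =>
    obtain ⟨c, hc⟩ := ih
    refine ⟨c * (1 + y) + j, ?_⟩
    rw [pow_succ]
    push_cast
    linear_combination (1 + y) * hc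

/-- integers `W ≠ 1` of prime order `ℓ` modulo `N` which are `1` modulo all primes of `N` -/
theorem ker_core (N : ℕ) (hN : 0 < N) (W : ℤ) (ℓ : ℕ) (hℓ : ℓ.Prime)
    (h1 : ∀ r : ℕ, r.Prime → r ∣ N → (r : ℤ) ∣ W - 1) (h4 : 4 ∣ N → (4 : ℤ) ∣ W - 1)
    (hW : (N : ℤ) ∣ W ^ ℓ - 1) (hne : ¬ (N : ℤ) ∣ W - 1) :
    ∃ D : ℕ, N = ℓ * D ∧ N ∣ D ^ 2 ∧ ∃ c : ℤ, W = 1 + D * c ∧ ¬ (ℓ : ℤ) ∣ c := by
  have hgs : (∑ i ∈ range ℓ, W ^ i) * (W - 1) = W ^ ℓ - 1 := geom_sum_mul W ℓ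
  -- divisors prime to `ℓ`
  have hD : ∀ D : ℕ, D ∣ N → ¬ ℓ ∣ D → (D : ℤ) ∣ W - 1 := by
    intro D hDN hℓD
    have hD0 : (D : ℤ) ≠ 0 := by
      rintro h0
      have : D = 0 := by exact_mod_cast h0
      rw [this] at hDN
      exact hN.ne' (Nat.eq_zero_of_zero_dvd hDN)
    have hco : IsCoprime (D : ℤ) (∑ i ∈ range ℓ, W ^ i) := by
      refine isCoprime_of_prime_dvd (fun h => hD0 h.1) ?_
      intro r hr hr1 hr2
      have hrp : r.natAbs.Prime := Int.prime_iff_natAbs_prime.1 hr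
      have hrD : r.natAbs ∣ D := by
        have := Int.natAbs_dvd_natAbs.2 hr1
        simpa using this
      have hr3 : r ∣ W - 1 := Int.natAbs_dvd.1 (h1 _ hrp (hrD.trans hDN))
      have h5 := dvd_sub hr2 (hr3.trans (geom_mod W ℓ))
      simp only [sub_sub_cancel] at h5
      have h6 : r.natAbs ∣ ℓ := by
        have := Int.natAbs_dvd_natAbs.2 h5
        simpa using this
      rw [(Nat.prime_dvd_prime_iff_eq hrp hℓ).1 h6] at hrD
      exact hℓD hrD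
    refine hco.dvd_of_dvd_mul_left ?_
    rw [hgs]
    exact (Int.natCast_dvd_natCast.2 hDN).trans hW
  have hℓN : ℓ ∣ N := by
    by_contra h
    exact hne (hD N dvd_rfl h)
  obtain ⟨D, hND⟩ := hℓN
  have hcomb : ∀ E : ℕ, ¬ ℓ ∣ E → (E : ℤ) ∣ W - 1 → ((ℓ * E : ℕ) : ℤ) ∣ W - 1 := by
    intro E hE h
    push_cast
    refine IsCoprime.mul_dvd ?_ (h1 ℓ hℓ ⟨D, hND⟩) h
    rw [Nat.isCoprime_iff_coprime]
    exact (Nat.Prime.coprime_iff_not_dvd hℓ).2 hE
  have hℓD : ℓ ∣ D := by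
    by_contra h
    apply hne
    rw [hND]
    exact hcomb D h (hD D ⟨ℓ, by rw [hND, mul_comm]⟩ h)
  have h42 : ℓ = 2 → (4 : ℤ) ∣ W - 1 := by
    intro h2
    apply h4
    obtain ⟨E, hE⟩ := hℓD
    rw [hND, hE, h2]
    exact ⟨E, by ring⟩
  obtain ⟨T', hT, hTc⟩ := geom_prime ℓ hℓ W (h1 ℓ hℓ ⟨D, hND⟩) h42
  have hN0 : (N : ℤ) ≠ 0 := by exact_mod_cast hN.ne'
  have hcoN : IsCoprime (N : ℤ) T' := by
    refine isCoprime_of_prime_dvd (fun h => hN0 h.1) ?_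
    intro r hr hr1 hr2
    have hrp : r.natAbs.Prime := Int.prime_iff_natAbs_prime.1 hr
    have hrN : r.natAbs ∣ N := by
      have := Int.natAbs_dvd_natAbs.2 hr1
      simpa using this
    have hr3 : r ∣ W - 1 := Int.natAbs_dvd.1 (h1 _ hrp hrN)
    have hr4 : r ∣ ∑ i ∈ range ℓ, W ^ i := by
      rw [hT]
      exact hr2.mul_left _
    have h5 := dvd_sub hr4 (hr3.trans (geom_mod W ℓ))
    simp only [sub_sub_cancel] at h5
    obtain ⟨u, v, huv⟩ := hTc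
    exact hr.not_isUnit (isUnit_of_dvd_one (huv ▸ dvd_add (h5.mul_left u) (hr2.mul_left v)))
  have hNx : (N : ℤ) ∣ (W - 1) * ℓ := by
    refine hcoN.dvd_of_dvd_mul_right ?_
    have : (W - 1) * ℓ * T' = W ^ ℓ - 1 := by
      rw [← hgs, hT]
      ring
    rw [this]
    exact hW
  have hℓ0 : (ℓ : ℤ) ≠ 0 := by exact_mod_cast hℓ.ne_zero
  have hDx : (D : ℤ) ∣ W - 1 := by
    rw [hND, mul_comm (W - 1)] at hNx
    push_cast at hNx
    exact (mul_dvd_mul_iff_left hℓ0).1 hNx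
  obtain ⟨c, hc⟩ := hDx
  refine ⟨D, hND, ?_, c, by linear_combination hc, ?_⟩
  · obtain ⟨E, hE⟩ := hℓD
    rw [hND, sq]
    exact mul_dvd_mul ⟨E, hE⟩ dvd_rfl
  · rintro ⟨b, hb⟩
    apply hne
    rw [hc, hb, hND]
    push_cast
    exact ⟨b, by ring⟩

theorem ker : Pool.Agent.P8H3.EF.S_KER := by
  intro N _ A _ χ hχ w hw hw4 hχw
  by_contra hne
  have hN : 0 < N := Nat.pos_of_ne_zero (NeZero.ne N)
  set n := orderOf w with hn
  have hn0 : 0 < n := orderOf_pos w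
  have hn1 : n ≠ 1 := fun h => hne (orderOf_eq_one_iff.1 h)
  have hℓ := Nat.minFac_prime hn1
  obtain ⟨m, hm⟩ := Nat.minFac_dvd n
  set ℓ := n.minFac with hℓd
  have hm0 : 0 < m := by
    rcases Nat.eq_zero_or_pos m with h0 | h0
    · rw [h0] at hm; omega
    · exact h0
  have hmn : m < n := by
    have := hℓ.two_le
    nlinarith
  set W₀ : ℤ := ((w : ZMod N).val : ℤ) with hW₀
  have hW₀c : ((W₀ : ℤ) : ZMod N) = (w : ZMod N) := by
    rw [hW₀]
    simp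
  have hWc : ∀ j : ℕ, (((W₀ ^ m) ^ j : ℤ) : ZMod N) = ((w ^ (m * j) : (ZMod N)ˣ) : ZMod N) := by
    intro j
    push_cast
    rw [hW₀c, ← pow_mul]
  have hmod : ∀ r : ℕ, (w : ZMod N).val ≡ 1 [MOD r] → (r : ℤ) ∣ W₀ ^ m - 1 := by
    intro r hr
    have h5 : (r : ℤ) ∣ W₀ - 1 := by
      have := (Nat.modEq_iff_dvd.1 hr.symm)
      push_cast at this
      exact this
    exact h5.trans (by simpa using sub_dvd_pow_sub_pow W₀ 1 m)
  have hzero : ∀ x : ℤ, ((x : ℤ) : ZMod N) = 1 ↔ (N : ℤ) ∣ x - 1 := by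
    intro x
    rw [← ZMod.intCast_zmod_eq_zero_iff_dvd]
    push_cast
    rw [sub_eq_zero]
  obtain ⟨D, hND, hND2, c, hWc2, hc⟩ := ker_core N hN (W₀ ^ m) ℓ hℓ
    (fun r hr hrN => hmod r (hw r hr hrN)) (fun h => by exact_mod_cast hmod 4 (hw4 h)) (by
      rw [← hzero, hWc, mul_comm, ← hm, pow_orderOf_eq_one, Units.val_one]) (by
      intro h
      rw [← hzero, ← pow_one (W₀ ^ m), hWc, mul_one] at h
      have h5 : w ^ m = 1 := Units.ext (by rw [h, Units.val_one])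
      exact absurd (orderOf_dvd_of_pow_eq_one h5) (Nat.not_dvd_of_pos_of_lt hm0 hmn))
  have hDN : D ∣ N := ⟨ℓ, by rw [hND, mul_comm]⟩
  have hχu : χ.toUnitHom w = 1 := by
    apply Units.ext
    rw [MulChar.coe_toUnitHom, hχw, Units.val_one]
  have hfac : χ.FactorsThrough D := by
    rw [DirichletCharacter.factorsThrough_iff_ker_unitsMap hDN]
    intro u hu
    rw [MonoidHom.mem_ker] at hu ⊢
    have hu1 : (D : ℤ) ∣ ((u : ZMod N).val : ℤ) - 1 := by
      have h5 := congrArg (Units.val) hu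
      rw [ZMod.unitsMap_val, Units.val_one] at h5
      rw [← ZMod.intCast_zmod_eq_zero_iff_dvd]
      push_cast
      rw [ZMod.natCast_val, h5, sub_self]
    obtain ⟨e, he⟩ := hu1
    have : Fact ℓ.Prime := ⟨hℓ⟩
    have hc0 : ((c : ℤ) : ZMod ℓ) ≠ 0 := by
      rw [Ne, ZMod.intCast_zmod_eq_zero_iff_dvd]
      exact hc
    set j : ℕ := (((e : ℤ) : ZMod ℓ) * ((c : ℤ) : ZMod ℓ)⁻¹).val with hj
    have hjc : (ℓ : ℤ) ∣ j * c - e := by
      rw [← ZMod.intCast_zmod_eq_zero_iff_dvd]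
      push_cast
      rw [hj, ZMod.natCast_val, ZMod.cast_id', id, mul_assoc, inv_mul_cancel₀ hc0, mul_one, sub_self]
    have hND2' : (N : ℤ) ∣ ((D : ℤ) * c) ^ 2 := by
      rw [mul_pow]
      exact Dvd.dvd.mul_right (by exact_mod_cast hND2) _
    have h6 : (N : ℤ) ∣ (W₀ ^ m) ^ j - ((u : ZMod N).val : ℤ) := by
      have h7 := hND2'.trans (one_add_pow_dvd ((D : ℤ) * c) j)
      rw [← hWc2] at h7
      obtain ⟨b, hb⟩ := hjc
      have h8 : (N : ℤ) ∣ (1 + j * (D * c)) - ((u : ZMod N).val : ℤ) := by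
        refine ⟨b, ?_⟩
        have hNZ : (N : ℤ) = ℓ * D := by exact_mod_cast hND
        rw [hNZ]
        linear_combination (D : ℤ) * hb - he
      have h9 := dvd_add h7 h8
      simpa using h9
    have h7 : u = w ^ (m * j) := by
      apply Units.ext
      rw [← hWc, ← sub_eq_zero]
      rw [← ZMod.intCast_zmod_eq_zero_iff_dvd] at h6
      push_cast at h6 ⊢
      rw [ZMod.natCast_val, ZMod.cast_id', id] at h6
      linear_combination (-1 : ZMod N) * h6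
    rw [h7, map_pow, hχu, one_pow]
  have hle : χ.conductor ≤ D := Nat.sInf_le hfac
  rw [hχ] at hle
  have hD0 : 0 < D := Nat.pos_of_dvd_of_pos hDN hN
  have := hℓ.two_le
  nlinarith

end Pool.Agent.P8H63.EF
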