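import Pool.Agent.P8H3.EF.Stm

/-!
# Project EF (helper3), package TR: the trace of a root of unity (helper63)
-/

set_option autoImplicit false

namespace Pool.Agent.P8H63.EF

open Finset

theorem geom_mod (x : ℤ) (m : ℕ) : (x - 1) ∣ (∑ i ∈ range m, x ^ i) - m := by
  have h : (∑ i ∈ range m, x ^ i) - m = ∑ i ∈ range m, (x ^ i - 1) := by simp
  rw [h]
  exact Finset.dvd_sum fun i _ => by simpa using sub_dvd_pow_sub_pow x 1 i

theorem mul_dvd_pow_sub_one (x : ℤ) : ∀ M : ℕ, 0 < M → (∀ ℓ : ℕ, ℓ.Prime → ℓ ∣ M → (ℓ : ℤ) ∣ x - 1) →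
    (x - 1) * M ∣ x ^ M - 1 := by
  intro M
  induction M using Nat.strong_induction_on with
  | _ M ih =>
    intro hM h
    rcases Nat.lt_or_ge 1 M with h1 | h1
    · have hp := Nat.minFac_prime (by omega : M ≠ 1)
      obtain ⟨M', hM'⟩ := Nat.minFac_dvd M
      have hM'0 : 0 < M' := by
        rcases Nat.eq_zero_or_pos M' with h0 | h0
        · rw [h0] at hM'; omega
        · exact h0
      have hlt : M' < M := by
        have := hp.two_le
        nlinarith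
      have ih' := ih M' hlt hM'0 fun ℓ hℓ hd => h ℓ hℓ (hd.trans (Dvd.intro_left _ hM'.symm))
      set ℓ := M.minFac with hℓ
      have hx : (ℓ : ℤ) ∣ x ^ M' - 1 :=
        (h ℓ hp (Nat.minFac_dvd M)).trans (by simpa using sub_dvd_pow_sub_pow x 1 M')
      have hg : (ℓ : ℤ) ∣ ∑ i ∈ range ℓ, (x ^ M') ^ i := by
        have h2 := hx.trans (geom_mod (x ^ M') ℓ)
        have h3 := dvd_add h2 (dvd_refl (ℓ : ℤ))
        simpa using h3
      have h4 : (∑ i ∈ range ℓ, (x ^ M') ^ i) * (x ^ M' - 1) = x ^ M - 1 := by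
        rw [geom_sum_mul, ← pow_mul, mul_comm M' ℓ, ← hM']
      rw [← h4, hM']
      push_cast
      calc (x - 1) * ((ℓ : ℤ) * M') = (ℓ : ℤ) * ((x - 1) * M') := by ring
        _ ∣ _ := mul_dvd_mul hg ih'
    · have : M = 1 := by omega
      subst this
      simp

theorem geom_prime (ℓ : ℕ) (hℓ : ℓ.Prime) (x : ℤ) (h : (ℓ : ℤ) ∣ x - 1) (h2 : ℓ = 2 → (4 : ℤ) ∣ x - 1) :
    ∃ T' : ℤ, ∑ i ∈ range ℓ, x ^ i = ℓ * T' ∧ IsCoprime (ℓ : ℤ) T' := by
  rcases hℓ.eq_two_or_odd' with rfl | hodd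
  · obtain ⟨c, hc⟩ := h2 rfl
    refine ⟨1 + 2 * c, ?_, ⟨-c, 1, by push_cast; ring⟩⟩
    rw [sum_range_succ, sum_range_succ, sum_range_zero]
    push_cast
    linear_combination hc
  · obtain ⟨b, hb⟩ := h
    obtain ⟨c, hc⟩ := odd_sq_dvd_geom_sum₂_sub (1 : ℤ) b hodd
    have hx : x = 1 + ℓ * b := by linear_combination hb
    simp only [one_pow, mul_one] at hc
    rw [← hx] at hc
    exact ⟨1 + ℓ * c, by linear_combination hc, ⟨-c, 1, by ring⟩⟩

theorem sum_shift {A : Type} [AddCommGroup A] (f : ℕ → A) (M : ℕ) (hf : ∀ j, f (j + M) = f j) (s : ℕ) :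
    ∑ j ∈ range M, f (j + s) = ∑ j ∈ range M, f j := by
  induction s with
  | zero => simp
  | succ s ih =>
    have h1 := sum_range_succ' (fun j => f (j + s)) M
    have h2 := sum_range_succ (fun j => f (j + s)) M
    rw [h1] at h2
    have h3 : f (M + s) = f (0 + s) := by
      rw [zero_add, add_comm M s]
      exact hf s
    rw [h3] at h2
    have h4 := add_right_cancel h2
    rw [← ih, ← h4]
    refine sum_congr rfl fun j _ => ?_
    congr 1
    ring

theorem tr : Pool.Agent.P8H3.EF.S_TR := by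
  intro k _ p _ _ g q Λ R z hq hΛ hd h4 hz hz1 hzM
  set M := Λ ^ R with hM
  have hM0 : 0 < M := pow_pos hΛ R
  have hq1 : 1 ≤ q := by
    rw [hq]
    exact Nat.one_le_pow _ _ (Fact.out : p.Prime).pos
  have hprM : ∀ ℓ : ℕ, ℓ.Prime → ℓ ∣ M → ℓ ∣ q - 1 := fun ℓ hℓ h => hd ℓ hℓ (hℓ.dvd_of_dvd_pow h)
  have hqz : ((q - 1 : ℕ) : ℤ) = (q : ℤ) - 1 := by push_cast [hq1]; ring
  have hprZ : ∀ ℓ : ℕ, ℓ.Prime → ℓ ∣ M → (ℓ : ℤ) ∣ (q : ℤ) - 1 := fun ℓ hℓ h => by
    rw [← hqz]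
    exact_mod_cast hprM ℓ hℓ h
  -- `z ^ (q ^ M) = z`
  have hpowz : ∀ j : ℕ, ((q ^ j - 1 : ℕ) : ℤ) = (q : ℤ) ^ j - 1 := fun j => by
    have : 1 ≤ q ^ j := Nat.one_le_pow _ _ hq1
    push_cast [this]
    ring
  have hdM : (q - 1) * M ∣ q ^ M - 1 := by
    have := mul_dvd_pow_sub_one (q : ℤ) M hM0 hprZ
    rw [← hqz, ← hpowz M] at this
    exact_mod_cast this
  have hstep : ∀ j : ℕ, z ^ q ^ j = z ^ (q ^ j - 1) * z := fun j => by
    rw [← pow_succ]
    congr 1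
    have : 1 ≤ q ^ j := Nat.one_le_pow _ _ hq1
    omega
  have hperM : z ^ q ^ M = z := by
    obtain ⟨c, hc⟩ := hdM
    rw [hstep, hc, pow_mul, hzM, one_pow, one_mul]
  set F : k → k := fun x => x ^ q with hF
  have hit : ∀ j : ℕ, F^[j] z = z ^ q ^ j := fun j => by
    rw [hF, pow_iterate]
  have hP : Function.IsPeriodicPt F M z := (hit M).trans hperM
  set d := Function.minimalPeriod F z with hdd
  have hd0 : 0 < d := hP.minimalPeriod_pos hM0
  have hdvd : d ∣ M := hP.minimalPeriod_dvd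
  have hd1 : d ≠ 1 := by
    intro h
    rw [hdd, Function.minimalPeriod_eq_one_iff_isFixedPt] at h
    apply hz1
    have h5 : z ^ q = z := h
    have h6 := hstep 1
    rw [pow_one, h5] at h6
    exact (mul_right_cancel₀ hz (by rw [one_mul]; exact h6)).symm
  have hℓ := Nat.minFac_prime hd1
  obtain ⟨s, hs⟩ := Nat.minFac_dvd d
  set ℓ := d.minFac with hℓd
  have hs0 : 0 < s := by
    rcases Nat.eq_zero_or_pos s with h0 | h0
    · rw [h0] at hs; omega
    · exact h0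
  have hsd : s < d := by
    have := hℓ.two_le
    nlinarith
  have hℓM : ℓ ∣ M := (Nat.minFac_dvd d).trans hdvd
  have hℓq : ℓ ∣ q - 1 := hprM ℓ hℓ hℓM
  have hε1 : z ^ (q ^ s - 1) ≠ 1 := by
    intro h
    apply Function.not_isPeriodicPt_of_pos_of_lt_minimalPeriod hs0.ne' hsd
    show F^[s] z = z
    rw [hit, hstep, h, one_mul]
  -- the order
  have hqs : (q : ℤ) - 1 ∣ (q : ℤ) ^ s - 1 := by simpa using sub_dvd_pow_sub_pow (q : ℤ) 1 s
  obtain ⟨T', hT, hTc⟩ := geom_prime ℓ hℓ ((q : ℤ) ^ s) ((hprZ ℓ hℓ hℓM).trans hqs) (fun h2 => by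
    have h5 : 2 ∣ Λ := Nat.prime_two.dvd_of_dvd_pow (h2 ▸ hℓM)
    have h6 : (4 : ℤ) ∣ ((q - 1 : ℕ) : ℤ) := by exact_mod_cast h4 h5
    rw [hqz] at h6
    exact h6.trans hqs)
  have hcop : IsCoprime (((q - 1) * M : ℕ) : ℤ) T' := by
    have hne : (((q - 1) * M : ℕ) : ℤ) ≠ 0 := by
      have hq' : q - 1 ≠ 0 := by
        intro h0
        rw [h0, pow_zero] at hz1
        exact hz1 rfl
      exact_mod_cast Nat.mul_ne_zero hq' hM0.ne'
    refine isCoprime_of_prime_dvd (fun h => hne h.1) ?_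
    intro r hr hr1 hr2
    have hr3 : r ∣ (q : ℤ) - 1 := by
      rw [Nat.cast_mul, hqz] at hr1
      rcases hr.dvd_or_dvd hr1 with h5 | h5
      · exact h5
      · have h6 : r.natAbs ∣ M := Int.natAbs_dvd_natAbs.2 h5 |>.trans (by simp)
        have h7 := hprZ r.natAbs (Int.prime_iff_natAbs_prime.1 hr) h6
        exact (Int.natAbs_dvd.1 h7)
    have hr4 : r ∣ (q : ℤ) ^ s - 1 := hr3.trans hqs
    have hr5 : r ∣ (ℓ : ℤ) := by
      have h6 := hr4.trans (geom_mod ((q : ℤ) ^ s) ℓ)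
      have h7 : r ∣ ∑ i ∈ range ℓ, ((q : ℤ) ^ s) ^ i := by
        rw [hT]
        exact hr2.mul_left _
      have h8 := dvd_sub h7 h6
      simpa using h8
    obtain ⟨u, v, huv⟩ := hTc
    exact hr.not_isUnit (isUnit_of_dvd_one (huv ▸ dvd_add (hr5.mul_left u) (hr2.mul_left v)))
  have hord1 : orderOf z ∣ (q - 1) * M := orderOf_dvd_of_pow_eq_one hzM
  have hord2 : orderOf z ∣ q ^ d - 1 := by
    apply orderOf_dvd_of_pow_eq_one
    have h5 : F^[d] z = z := Function.isPeriodicPt_minimalPeriod F z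
    rw [hit, hstep] at h5
    exact mul_right_cancel₀ hz (by rw [one_mul]; exact h5)
  have hord3 : (orderOf z : ℤ) ∣ ((q : ℤ) ^ s - 1) * ℓ := by
    have h5 : IsCoprime (orderOf z : ℤ) T' :=
      hcop.of_isCoprime_of_dvd_left (by exact_mod_cast hord1)
    refine h5.dvd_of_dvd_mul_right ?_
    have h6 : (orderOf z : ℤ) ∣ (q : ℤ) ^ d - 1 := by
      rw [← hpowz]
      exact_mod_cast hord2
    have h7 : ((q : ℤ) ^ s - 1) * ℓ * T' = (q : ℤ) ^ d - 1 := by
      have h8 := geom_sum_mul ((q : ℤ) ^ s) ℓ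
      rw [hT, ← pow_mul, mul_comm s ℓ, ← hs] at h8
      linear_combination h8
    rw [h7]
    exact h6
  have hord4 : orderOf z ∣ (q ^ s - 1) * ℓ := by
    rw [← hpowz] at hord3
    exact_mod_cast hord3
  have hεℓ : (z ^ (q ^ s - 1)) ^ ℓ = 1 := by
    rw [← pow_mul]
    exact orderOf_dvd_iff_pow_eq_one.1 hord4
  set ε := z ^ (q ^ s - 1) with hε
  have hεq : ε ^ q = ε := by
    obtain ⟨c, hc⟩ := hℓq
    have h5 : q = ℓ * c + 1 := by omega
    rw [h5, pow_succ, pow_mul, hεℓ, one_pow, one_mul]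
  have hεj : ∀ j : ℕ, ε ^ q ^ j = ε := by
    intro j
    induction j with
    | zero => simp
    | succ j ih => rw [pow_succ, pow_mul, ih, hεq]
  have hsum1 : ∑ j ∈ range M, z ^ q ^ (j + s) = ∑ j ∈ range M, z ^ q ^ j := by
    refine sum_shift (fun j => z ^ q ^ j) M (fun j => ?_) s
    show z ^ q ^ (j + M) = z ^ q ^ j
    rw [add_comm, pow_add, pow_mul, hperM]
  have hsum2 : ∑ j ∈ range M, z ^ q ^ (j + s) = ε * ∑ j ∈ range M, z ^ q ^ j := by
    rw [mul_sum]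
    refine sum_congr rfl fun j _ => ?_
    rw [add_comm, pow_add, pow_mul, hstep s, mul_pow, hεj]
  have hfin : (ε - 1) * ∑ j ∈ range M, z ^ q ^ j = 0 := by
    rw [sub_mul, one_mul, ← hsum2, hsum1, sub_self]
  rcases mul_eq_zero.1 hfin with h5 | h5
  · exact absurd (sub_eq_zero.1 h5) hε1
  · exact h5

end Pool.Agent.P8H63.EF
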